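import Pool.Agent.H211NG.Final

/-!
# The closed form of the maximum of `i(G) i(Gᶜ)`
-/

set_option autoImplicit false

namespace Pool.Agent.H211NG

open Finset

lemma sqrt_of_nat (n a b c : ℕ) (hn : n = a + b + c) (h : 4 * (a * b) ≤ c ^ 2) :
    √(a : ℝ) + √(b : ℝ) ≤ √(n : ℝ) := by
  apply Real.le_sqrt_of_sq_le
  have h' : (4 : ℝ) * (a * b) ≤ (c : ℝ) ^ 2 := by exact_mod_cast h
  have hn' : (n : ℝ) = a + b + c := by exact_mod_cast hn
  have hp := Real.mul_self_sqrt (by positivity : (0 : ℝ) ≤ a)
  have hq := Real.mul_self_sqrt (by positivity : (0 : ℝ) ≤ b)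
  have h1 : 2 * (√(a : ℝ) * √(b : ℝ)) ≤ c := by
    apply abs_le_of_sq_le_sq' _ (by positivity) |>.2
    have : (2 * (√(a : ℝ) * √(b : ℝ))) ^ 2 = 4 * (a * b) := by
      rw [← hp, ← hq]
      ring_nf
      rw [Real.sq_sqrt (by positivity), Real.sq_sqrt (by positivity)]
      rw [Real.sq_sqrt (by positivity), Real.sq_sqrt (by positivity)]
    rw [this]
    exact h'
  nlinarith

lemma nat_of_sqrt (n a b : ℕ) (h : √(a : ℝ) + √(b : ℝ) ≤ √(n : ℝ)) :
    ∃ c, n = a + b + c ∧ 4 * (a * b) ≤ c ^ 2 := by
  set p := √(a : ℝ) with hp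
  set q := √(b : ℝ) with hq
  set r := √(n : ℝ) with hr
  have hp2 : p * p = a := Real.mul_self_sqrt (by positivity)
  have hq2 : q * q = b := Real.mul_self_sqrt (by positivity)
  have hr2 : r * r = n := Real.mul_self_sqrt (by positivity)
  have hp0 : 0 ≤ p := Real.sqrt_nonneg _
  have hq0 : 0 ≤ q := Real.sqrt_nonneg _
  have hpq : 0 ≤ p * q := mul_nonneg hp0 hq0
  have hs : (p + q) * (p + q) ≤ r * r := mul_self_le_mul_self (by positivity) h
  have h1 : (a : ℝ) + b ≤ n := by nlinarith
  have h2 : a + b ≤ n := by exact_mod_cast h1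
  obtain ⟨c, hc⟩ := Nat.exists_eq_add_of_le h2
  refine ⟨c, hc, ?_⟩
  have hc' : (n : ℝ) = a + b + c := by exact_mod_cast hc
  have h3 : 2 * (p * q) ≤ c := by nlinarith
  have h4 := mul_self_le_mul_self (by positivity : 0 ≤ 2 * (p * q)) h3
  have h5 : (4 : ℝ) * (a * b) ≤ (c : ℝ) ^ 2 := by
    rw [← hp2, ← hq2]
    nlinarith
  exact_mod_cast h5

/-- The closed form. -/
def closed (n : ℕ) : ℕ :=
  max n ((n / 2 + 2) ^ 2 / 4 +
    if n % 2 = 1 ∧ 3 ≤ n ∧ (IsSquare n ∨ IsSquare (n + 1)) then 1 else 0)

lemma upper_nat (n a b c : ℕ) (ha : 1 ≤ a) (hb : 1 ≤ b) (hn : n = a + b + c)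
    (h : 4 * (a * b) ≤ c ^ 2) : (a + 1) * (b + 1) ≤ closed n := by
  have hab : a + b ≤ a * b + 1 := by
    obtain ⟨a', rfl⟩ := Nat.exists_eq_add_of_le ha
    obtain ⟨b', rfl⟩ := Nat.exists_eq_add_of_le hb
    nlinarith [Nat.zero_le (a' * b')]
  have hc2 : 2 ≤ c := by
    by_contra hno
    have : c ^ 2 ≤ 1 ^ 2 := Nat.pow_le_pow_left (by omega) 2
    omega
  have hbase : (n / 2 + 2) ^ 2 / 4 ≤ closed n :=
    (Nat.le_add_right _ _).trans (le_max_right _ _)
  have hdone : (a + 1) * (b + 1) * 4 ≤ (n / 2 + 2) ^ 2 → (a + 1) * (b + 1) ≤ closed n :=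
    fun h1 => ((Nat.le_div_iff_mul_le (by norm_num)).mpr h1).trans hbase
  by_cases h2 : 2 * (a + b) ≤ n
  · apply hdone
    have h3 : a + b ≤ n / 2 := by omega
    calc (a + 1) * (b + 1) * 4 ≤ (a + b + 2) ^ 2 := by
          zify
          nlinarith [sq_nonneg ((a : ℤ) - b)]
      _ ≤ _ := Nat.pow_le_pow_left (by omega) 2
  · push Not at h2
    obtain ⟨k, hk⟩ : ∃ k, n / 2 = k := ⟨_, rfl⟩
    rcases Nat.even_or_odd' n with ⟨k', hk' | hk'⟩
    · -- `n = 2 k`
      have hkk : k = k' := by omega
      subst hkk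
      apply hdone
      rw [hk]
      have h3 : c + 1 ≤ k := by omega
      have h4 : a + b = 2 * k - c := by omega
      zify at *
      have e : (a : ℤ) + b = 2 * k - c := by omega
      nlinarith [mul_nonneg (by linarith : (0 : ℤ) ≤ c - 2) (by linarith : (0 : ℤ) ≤ k - c)]
    · -- `n = 2 k + 1`
      have hkk : k = k' := by omega
      subst hkk
      have hSc : a + b + c = 2 * k + 1 := by omega
      have hck : c ≤ k := by omega
      rcases Nat.lt_or_ge c k with hc | hc
      · -- `c < k`
        apply hdone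
        rw [hk]
        have hk4 : 4 ≤ k := by
          by_contra hno
          have h5 : k = 3 := by omega
          have h6 : c = 2 := by omega
          subst h5 h6
          omega
        have h5 : (a + 1) * (b + 1) * 4 ≤ (k + 2) ^ 2 + 2 := by
          zify at *
          have e : (a : ℤ) + b = 2 * k + 1 - c := by omega
          nlinarith [mul_nonneg (by linarith : (0 : ℤ) ≤ c - 2) (by linarith : (0 : ℤ) ≤ k - 1 - c)]
        obtain ⟨t, ht | ht⟩ : ∃ t, k = 2 * t ∨ k = 2 * t + 1 := ⟨k / 2, by omega⟩
        · rw [ht] at h5 ⊢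
          have e : (2 * t + 2) ^ 2 = 4 * (t + 1) ^ 2 := by ring
          rw [e] at h5 ⊢
          omega
        · rw [ht] at h5 ⊢
          have e : (2 * t + 1 + 2) ^ 2 = 4 * ((t + 1) * (t + 2)) + 1 := by ring
          rw [e] at h5 ⊢
          omega
      · -- `c = k`
        have hc' : c = k := by omega
        subst hc'
        have hS : a + b = c + 1 := by omega
        by_cases h5 : (a + 1) * (b + 1) * 4 ≤ (n / 2 + 2) ^ 2
        · exact hdone h5
        push Not at h5
        rw [hk] at h5
        have hP : (a + 1) * (b + 1) = a * b + c + 2 := by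
          calc (a + 1) * (b + 1) = a * b + (a + b) + 1 := by ring
            _ = _ := by rw [hS]; ring
        have hsq : IsSquare n ∨ IsSquare (n + 1) := by
          obtain ⟨t, ht | ht⟩ : ∃ t, c = 2 * t ∨ c = 2 * t + 1 := ⟨c / 2, by omega⟩
          · left
            have e1 : (c + 2) ^ 2 = 4 * (t * t) + 8 * t + 4 := by rw [ht]; ring
            have e2 : c ^ 2 = 4 * (t * t) := by rw [ht]; ring
            have e3 : a * b = t * t := by omega
            have e4 : ((a : ℤ) - b) * (a - b) = n := by
              have e5 : (a : ℤ) * b = t * t := by exact_mod_cast e3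
              have e6 : (a : ℤ) + b = 2 * t + 1 := by
                have : a + b = 2 * t + 1 := by omega
                exact_mod_cast this
              have e7 : (n : ℤ) = 4 * t + 1 := by
                have : n = 4 * t + 1 := by omega
                exact_mod_cast this
              rw [e7]
              nlinarith
            refine ⟨((a : ℤ) - b).natAbs, ?_⟩
            have e8 := Int.natAbs_mul_self (a := (a : ℤ) - b)
            have e9 : ((((a : ℤ) - b).natAbs * ((a : ℤ) - b).natAbs : ℕ) : ℤ) = n := by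
              rw [e8]; exact e4
            exact_mod_cast e9.symm
          · right
            have e1 : (c + 2) ^ 2 = 4 * (t * t) + 12 * t + 9 := by rw [ht]; ring
            have e2 : c ^ 2 = 4 * (t * t) + 4 * t + 1 := by rw [ht]; ring
            have e3 : a * b = t * t + t := by omega
            have e4 : ((a : ℤ) - b) * (a - b) = ((n + 1 : ℕ) : ℤ) := by
              have e5 : (a : ℤ) * b = t * t + t := by exact_mod_cast e3
              have e6 : (a : ℤ) + b = 2 * t + 2 := by
                have : a + b = 2 * t + 2 := by omega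
                exact_mod_cast this
              have e7 : ((n + 1 : ℕ) : ℤ) = 4 * t + 4 := by
                have : n + 1 = 4 * t + 4 := by omega
                exact_mod_cast this
              rw [e7]
              nlinarith
            refine ⟨((a : ℤ) - b).natAbs, ?_⟩
            have e8 := Int.natAbs_mul_self (a := (a : ℤ) - b)
            have e9 : ((((a : ℤ) - b).natAbs * ((a : ℤ) - b).natAbs : ℕ) : ℤ) =
                ((n + 1 : ℕ) : ℤ) := by
              rw [e8]; exact e4
            exact_mod_cast e9.symm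
        have hcond : n % 2 = 1 ∧ 3 ≤ n ∧ (IsSquare n ∨ IsSquare (n + 1)) :=
          ⟨by omega, by omega, hsq⟩
        refine le_trans ?_ (le_max_right _ _)
        rw [if_pos hcond, hk, hP]
        have e1 : (c + 2) ^ 2 = c ^ 2 + 4 * c + 4 := by ring
        rw [e1]
        omega

lemma value_le_closed (n : ℕ) : value n ≤ closed n := by
  rcases value_cases n with h | ⟨a, b, ha, hb, hab, hv⟩
  · rw [h]
    exact le_max_left _ _
  · obtain ⟨c, hc, hc2⟩ := nat_of_sqrt n a b hab
    rw [hv]
    exact upper_nat n a b c ha hb hc hc2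

lemma closed_le_value (n : ℕ) (hn : 1 ≤ n) : closed n ≤ value n := by
  have hnv : n ≤ value n := le_max_left _ _
  have hbase : (n / 2 + 2) ^ 2 / 4 ≤ value n := by
    rcases Nat.lt_or_ge n 4 with h | h
    · refine le_trans ?_ hnv
      interval_cases n <;> norm_num
    · obtain ⟨k, hk⟩ : ∃ k, n / 2 = k := ⟨_, rfl⟩
      rw [hk]
      obtain ⟨t, ht | ht⟩ : ∃ t, k = 2 * t ∨ k = 2 * t + 1 := ⟨k / 2, by omega⟩
      · have h1 : √(t : ℝ) + √(t : ℝ) ≤ √(n : ℝ) := by
          obtain ⟨c, hc⟩ : ∃ c, n = t + t + c := ⟨n - (t + t), by omega⟩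
          refine sqrt_of_nat n t t c hc ?_
          have : 2 * t ≤ c := by omega
          nlinarith
        have h2 := le_value n t t (by omega) (by omega) h1
        have e : (k + 2) ^ 2 / 4 = (t + 1) * (t + 1) := by
          rw [ht, show (2 * t + 2) ^ 2 = (t + 1) * (t + 1) * 4 by ring]
          exact Nat.mul_div_cancel _ (by norm_num)
        rw [e]
        exact h2
      · have h1 : √(t : ℝ) + √((t + 1 : ℕ) : ℝ) ≤ √(n : ℝ) := by
          obtain ⟨c, hc⟩ : ∃ c, n = t + (t + 1) + c := ⟨n - (t + (t + 1)), by omega⟩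
          refine sqrt_of_nat n t (t + 1) c hc ?_
          have : 2 * t + 1 ≤ c := by omega
          nlinarith
        have h2 := le_value n t (t + 1) (by omega) (by omega) h1
        have e : (k + 2) ^ 2 / 4 = (t + 1) * (t + 1 + 1) := by
          have e1 : (2 * t + 1 + 2) ^ 2 = 4 * ((t + 1) * (t + 1 + 1)) + 1 := by ring
          rw [ht, e1]
          omega
        rw [e]
        exact h2
  unfold closed
  refine max_le hnv ?_
  split_ifs with hcond
  · obtain ⟨hodd, h3, ⟨r, hr⟩ | ⟨r, hr⟩⟩ := hcond
    · -- `n = r²`, `r` odd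
      obtain ⟨j, hj | hj⟩ : ∃ j, r = 2 * j ∨ r = 2 * j + 1 := ⟨r / 2, by omega⟩
      · exfalso
        have : n = 2 * (2 * (j * j)) := by rw [hr, hj]; ring
        omega
      · have hn1 : n = 4 * (j * j) + 4 * j + 1 := by rw [hr, hj]; ring
        have hj1 : 1 ≤ j := by
          by_contra hno
          have : j = 0 := by omega
          subst this
          omega
        have h1 : √(((j + 1) * (j + 1) : ℕ) : ℝ) + √((j * j : ℕ) : ℝ) ≤ √(n : ℝ) := by
          refine sqrt_of_nat n _ _ (2 * (j * j) + 2 * j) (by rw [hn1]; ring) ?_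
          apply le_of_eq
          ring
        have h2 := le_value n ((j + 1) * (j + 1)) (j * j) (Nat.mul_pos (by omega) (by omega))
          (Nat.mul_pos hj1 hj1) h1
        refine le_trans (le_of_eq ?_) h2
        have e1 : n / 2 + 2 = 2 * (j * j + j + 1) := by omega
        rw [e1, show (2 * (j * j + j + 1)) ^ 2 = (j * j + j + 1) ^ 2 * 4 by ring,
          Nat.mul_div_cancel _ (by norm_num)]
        ring
    · -- `n + 1 = r²`, `r` even
      obtain ⟨j, hj | hj⟩ : ∃ j, r = 2 * j ∨ r = 2 * j + 1 := ⟨r / 2, by omega⟩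
      · obtain ⟨i, hi⟩ : ∃ i, j = i + 1 := by
          refine ⟨j - 1, ?_⟩
          have : j ≠ 0 := by
            rintro rfl
            subst hj
            omega
          omega
        have hn1 : n + 1 = 4 * (i * i) + 8 * i + 4 := by rw [hr, hj, hi]; ring
        rcases Nat.eq_zero_or_pos i with hi0 | hi0
        · subst hi0
          have : n = 3 := by omega
          subst this
          refine le_trans ?_ hnv
          norm_num
        · have h1 : √(((i + 1) * (i + 2) : ℕ) : ℝ) + √((i * (i + 1) : ℕ) : ℝ) ≤ √(n : ℝ) := by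
            refine sqrt_of_nat n _ _ (2 * (i * i) + 4 * i + 1) ?_ ?_
            · have e : (i + 1) * (i + 2) + i * (i + 1) + (2 * (i * i) + 4 * i + 1) =
                  4 * (i * i) + 8 * i + 3 := by ring
              omega
            · nlinarith
          have h2 := le_value n ((i + 1) * (i + 2)) (i * (i + 1))
            (Nat.mul_pos (by omega) (by omega)) (Nat.mul_pos hi0 (by omega)) h1
          refine le_trans (le_of_eq ?_) h2
          have e1 : n / 2 + 2 = 2 * (i * i + 2 * i + 1) + 1 := by omega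
          have e2 : (2 * (i * i + 2 * i + 1) + 1) ^ 2 =
              4 * ((i * i + 2 * i + 1) * (i * i + 2 * i + 2)) + 1 := by ring
          have e3 : ((i + 1) * (i + 2) + 1) * (i * (i + 1) + 1) =
              (i * i + 2 * i + 1) * (i * i + 2 * i + 2) + 1 := by ring
          rw [e1, e2, e3]
          omega
      · exfalso
        have : n + 1 = 2 * (2 * (j * j) + 2 * j) + 1 := by rw [hr, hj]; ring
        omega
  · exact hbase

theorem value_eq_closed (n : ℕ) (hn : 1 ≤ n) : value n = closed n :=
  le_antisymm (value_le_closed n) (closed_le_value n hn)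

end Pool.Agent.H211NG
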