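import Pool.Agent.H211NG.Core

/-!
# Split graphs with large `i(G)` and `i(Gᶜ)`
-/

set_option autoImplicit false

namespace Pool.Agent.H211NG

open Finset

universe u

/-- A lower bound of `i(G)` for a split graph. -/
lemma split_lower {V : Type u} [Fintype V] [DecidableEq V] (G : SimpleGraph V) (a : ℕ)
    (X : Finset V) (hX : ∀ v ∈ X, ∀ w ∈ X, ¬ G.Adj v w)
    (hY : ∀ v, v ∉ X → ∀ w, w ∉ X → v ≠ w → G.Adj v w) (hx : a + 1 ≤ X.card)
    (hw : ∀ w, w ∉ X → ∃ N : Finset V, N ⊆ X ∧ a ≤ N.card ∧ ∀ v ∈ N, ¬ G.Adj w v) :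
    a + 1 ≤ indepDom G := by
  obtain ⟨v0, hv0⟩ := card_pos.mp (by omega : 0 < X.card)
  obtain ⟨S0, -, hS0⟩ := exists_indepDominating G v0
  refine le_csInf ⟨S0.card, S0, hS0, rfl⟩ ?_
  rintro k ⟨S, hS, rfl⟩
  by_cases h : ∃ w ∈ S, w ∉ X
  · obtain ⟨w, hwS, hwX⟩ := h
    obtain ⟨N, hNX, hNa, hN⟩ := hw w hwX
    have hNS : N ⊆ S := by
      intro u hu
      by_contra huS
      obtain ⟨s, hs, hus⟩ := hS.2 u huS
      have hsX : s ∉ X := fun h => hX u (hNX hu) s h hus
      by_cases hsw : s = w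
      · exact hN u hu (hsw ▸ hus.symm)
      · exact hS.1 s hs w hwS (hY s hsX w hwX hsw)
    have h1 : insert w N ⊆ S := insert_subset hwS hNS
    have h2 := card_le_card h1
    rw [card_insert_of_notMem (fun h => hwX (hNX h))] at h2
    omega
  · push Not at h
    have hXS : X ⊆ S := by
      intro u hu
      by_contra huS
      obtain ⟨s, hs, hus⟩ := hS.2 u huS
      exact hX u hu s (h s hs) hus
    exact hx.trans (card_le_card hXS)

/-- The cyclic incidence relation. -/
def R (b y i r : ℕ) : Prop := ∃ j, j < b ∧ (i * b + j) % y = r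

/-- The split graph: the vertices `< x` are independent, the others form a clique. -/
def splitGraph (n b x y : ℕ) : SimpleGraph (Fin n) where
  Adj u w := u ≠ w ∧ ((x ≤ (u : ℕ) ∧ x ≤ (w : ℕ)) ∨ ((u : ℕ) < x ∧ x ≤ (w : ℕ) ∧ R b y u (w - x)) ∨
    ((w : ℕ) < x ∧ x ≤ (u : ℕ) ∧ R b y w (u - x)))
  symm := ⟨fun u w h => ⟨h.1.symm, by
    rcases h.2 with h1 | h1 | h1
    · exact Or.inl ⟨h1.2, h1.1⟩
    · exact Or.inr (Or.inr h1)
    · exact Or.inr (Or.inl h1)⟩⟩
  loopless := ⟨fun u h => h.1 rfl⟩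

theorem construct (n a b x y : ℕ) (ha : 1 ≤ a) (hb : 1 ≤ b) (hx : 1 ≤ x) (hy : 1 ≤ y)
    (hxy : x + y = n) (h : b * x + a * y ≤ x * y) :
    ∃ G : SimpleGraph (Fin n), a + 1 ≤ indepDom G ∧ b + 1 ≤ indepDom Gᶜ := by
  classical
  have hax : a < x := by
    by_contra hno
    push Not at hno
    have h1 : x * y ≤ a * y := Nat.mul_le_mul_right _ hno
    have h2 : 1 ≤ b * x := Nat.mul_pos hb hx
    omega
  have hby : b < y := by
    by_contra hno
    push Not at hno
    have h1 : x * y ≤ x * b := Nat.mul_le_mul_left _ hno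
    have h2 : 1 ≤ a * y := Nat.mul_pos ha hy
    have h3 : x * b = b * x := mul_comm _ _
    omega
  have hq : b * x ≤ (x - a) * y := by
    rw [Nat.sub_mul]
    omega
  set G := splitGraph n b x y with hG
  let X : Finset (Fin n) := univ.filter fun u => (u : ℕ) < x
  let Y : Finset (Fin n) := univ.filter fun u => x ≤ (u : ℕ)
  have hXc : x ≤ X.card := by
    have h1 : (univ : Finset (Fin x)).map (Fin.castLEEmb (by omega : x ≤ n)) ⊆ X := by
      intro u hu
      obtain ⟨i, -, rfl⟩ := mem_map.mp hu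
      exact mem_filter.mpr ⟨mem_univ _, i.2⟩
    have h2 := card_le_card h1
    rwa [card_map, card_univ, Fintype.card_fin] at h2
  have hYc : y ≤ Y.card := by
    have h1 : (univ : Finset (Fin y)).map ⟨fun i : Fin y => (⟨x + (i : ℕ), by
          have := i.2
          omega⟩ : Fin n), fun i j hij => by
        have h3 := congrArg Fin.val hij
        simp only at h3
        exact Fin.ext (by omega)⟩ ⊆ Y := by
      intro u hu
      obtain ⟨i, -, rfl⟩ := mem_map.mp hu
      exact mem_filter.mpr ⟨mem_univ _, Nat.le_add_right _ _⟩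
    have h2 := card_le_card h1
    rwa [card_map, card_univ, Fintype.card_fin] at h2
  have hmX : ∀ u : Fin n, u ∈ X ↔ (u : ℕ) < x := fun u => by simp [X]
  have hmY : ∀ u : Fin n, u ∈ Y ↔ x ≤ (u : ℕ) := fun u => by simp [Y]
  refine ⟨G, split_lower G a X ?_ ?_ (by omega) ?_, split_lower Gᶜ b Y ?_ ?_ (by omega) ?_⟩
  · intro v hv w hw hvw
    rw [hmX] at hv hw
    rcases hvw.2 with h1 | h1 | h1 <;> omega
  · intro v hv w hw hne
    rw [hmX] at hv hw
    exact ⟨hne, Or.inl ⟨by omega, by omega⟩⟩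
  · intro w hw
    rw [hmX] at hw
    refine ⟨X.filter fun u => ¬ G.Adj w u, filter_subset _ _, ?_, fun v hv => (mem_filter.mp hv).2⟩
    have h1 : (X.filter fun u => G.Adj w u).card ≤ x - a := by
      have h2 : ∀ u ∈ X.filter (fun u => G.Adj w u), R b y u ((w : ℕ) - x) := by
        intro u hu
        obtain ⟨hu1, hu2⟩ := mem_filter.mp hu
        rw [hmX] at hu1
        rcases hu2.2 with h1 | h1 | h1
        · omega
        · omega
        · exact h1.2.2
      choose! j hj using h2
      rw [← card_range (x - a)]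
      refine card_le_card_of_injOn (fun u => ((u : ℕ) * b + j u) / y) ?_ ?_
      · intro u hu
        rw [mem_coe] at hu ⊢
        have hu1 := (hmX u).mp (mem_filter.mp hu).1
        rw [mem_range, Nat.div_lt_iff_lt_mul (by omega)]
        calc (u : ℕ) * b + j u < (u : ℕ) * b + b := Nat.add_lt_add_left (hj u hu).1 _
          _ = ((u : ℕ) + 1) * b := by ring
          _ ≤ x * b := Nat.mul_le_mul_right _ hu1
          _ = b * x := mul_comm _ _
          _ ≤ _ := hq
      · intro u hu u' hu' huu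
        rw [mem_coe] at hu hu'
        simp only at huu
        have e1 := Nat.div_add_mod ((u : ℕ) * b + j u) y
        have e2 := Nat.div_add_mod ((u' : ℕ) * b + j u') y
        rw [(hj u hu).2] at e1
        rw [(hj u' hu').2, ← huu] at e2
        have e3 : (u : ℕ) * b + j u = (u' : ℕ) * b + j u' := by rw [← e1, ← e2]
        have j1 := (hj u hu).1
        have j2 := (hj u' hu').1
        apply Fin.ext
        rcases lt_trichotomy (u : ℕ) (u' : ℕ) with h5 | h5 | h5
        · have h6 : ((u : ℕ) + 1) * b ≤ (u' : ℕ) * b := Nat.mul_le_mul_right _ h5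
          rw [Nat.add_mul, one_mul] at h6
          omega
        · exact h5
        · have h6 : ((u' : ℕ) + 1) * b ≤ (u : ℕ) * b := Nat.mul_le_mul_right _ h5
          rw [Nat.add_mul, one_mul] at h6
          omega
    have h2 := card_filter_add_card_filter_not (s := X) (fun u => G.Adj w u)
    omega
  · intro v hv w hw hvw
    rw [hmY] at hv hw
    rw [SimpleGraph.compl_adj] at hvw
    exact hvw.2 ⟨hvw.1, Or.inl ⟨hv, hw⟩⟩
  · intro v hv w hw hne
    rw [hmY] at hv hw
    rw [SimpleGraph.compl_adj]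
    refine ⟨hne, fun h1 => ?_⟩
    rcases h1.2 with h1 | h1 | h1 <;> omega
  · intro u hu
    rw [hmY] at hu
    have hlt : ∀ j : ℕ, x + ((u : ℕ) * b + j) % y < n := by
      intro j
      have := Nat.mod_lt ((u : ℕ) * b + j) (by omega : y > 0)
      omega
    refine ⟨(range b).image fun j => (⟨x + ((u : ℕ) * b + j) % y, hlt j⟩ : Fin n), ?_, ?_, ?_⟩
    · intro w hw
      obtain ⟨j, -, rfl⟩ := mem_image.mp hw
      exact (hmY _).mpr (Nat.le_add_right _ _)
    · rw [card_image_of_injOn, card_range]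
      intro j hj j' hj' hjj
      rw [mem_coe, mem_range] at hj hj'
      have h1 := congrArg Fin.val hjj
      simp only at h1
      have h2 : ((u : ℕ) * b + j) ≡ ((u : ℕ) * b + j') [MOD y] := by
        unfold Nat.ModEq
        omega
      have h3 : j ≡ j' [MOD y] := Nat.ModEq.add_left_cancel' _ h2
      exact Nat.ModEq.eq_of_lt_of_lt h3 (by omega) (by omega)
    · intro w hw
      obtain ⟨j, hj, rfl⟩ := mem_image.mp hw
      rw [mem_range] at hj
      rw [SimpleGraph.compl_adj]
      intro h1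
      refine h1.2 ⟨h1.1, Or.inr (Or.inl ⟨by omega, Nat.le_add_right _ _, j, hj, ?_⟩)⟩
      simp

end Pool.Agent.H211NG
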