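import Pool.Agent.H211NG.Defs

/-!
# The main inequality for `i(G)` and the sizes of cliques
-/

set_option autoImplicit false

namespace Pool.Agent.H211NG

open Finset

universe u

variable {V : Type u} [Fintype V] [DecidableEq V]

/-- A clique `C ⊆ D` with `b` vertices, all adjacent to `v`. -/
def Cl (G : SimpleGraph V) (b : ℕ) (D : Finset V) (v : V) (C : Finset V) : Prop :=
  C ⊆ D ∧ C.card = b ∧ (∀ c ∈ C, G.Adj v c) ∧ ∀ c ∈ C, ∀ c' ∈ C, c ≠ c' → G.Adj c c'

omit [Fintype V] [DecidableEq V] in
lemma Cl.mono {G : SimpleGraph V} {b : ℕ} {D D' : Finset V} {v : V} {C : Finset V}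
    (h : Cl G b D v C) (hD : C ⊆ D') : Cl G b D' v C := ⟨hD, h.2⟩

omit [Fintype V] [DecidableEq V] in
lemma Cl.not_mem {G : SimpleGraph V} {b : ℕ} {D : Finset V} {v : V} {C : Finset V}
    (h : Cl G b D v C) : v ∉ C := fun hv => G.irrefl (h.2.2.1 v hv)

/-- The invariant of the greedy process. -/
def Inv (G : SimpleGraph V) (b : ℕ) (D : Finset V) : Prop :=
  (∀ v, v ∉ D → ∃ C, Cl G b D v C) ∧
    ∀ d ∈ D, (∃ C, Cl G b D d C) ∨ ∃ v, v ∉ D ∧ ∀ C, Cl G b D v C → d ∈ C

/-- `d` depends on `e`: they are equal, or every `b`-clique of `D` in the neighbourhood of `d`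
contains `e`. -/
def Dep (G : SimpleGraph V) (b : ℕ) (D : Finset V) (d e : V) : Prop :=
  d = e ∨ ∀ C, Cl G b D d C → e ∈ C

omit [Fintype V] in
lemma Dep.trans {G : SimpleGraph V} {b : ℕ} {D : Finset V} {d e f : V}
    (hd : d ∈ D) (h1 : Dep G b D d e) (h2 : Dep G b D e f) : Dep G b D d f := by
  rcases h1 with rfl | h1
  · exact h2
  rcases h2 with rfl | h2
  · exact Or.inr h1
  by_cases hdf : d = f
  · exact Or.inl hdf
  right
  intro C hC
  have he : e ∈ C := h1 C hC
  have hdC : d ∉ C := hC.not_mem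
  have h3 : Cl G b D e (insert d (C.erase e)) := by
    refine ⟨?_, ?_, ?_, ?_⟩
    · intro x hx
      rcases mem_insert.mp hx with rfl | hx
      · exact hd
      · exact hC.1 (mem_of_mem_erase hx)
    · rw [card_insert_of_notMem (fun h => hdC (mem_of_mem_erase h)), card_erase_of_mem he]
      have : 0 < C.card := card_pos.mpr ⟨e, he⟩
      have := hC.2.1
      omega
    · intro c hc
      rcases mem_insert.mp hc with rfl | hc
      · exact (hC.2.2.1 e he).symm
      · exact hC.2.2.2 e he c (mem_of_mem_erase hc) (ne_of_mem_erase hc).symm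
    · intro c hc c' hc' hne
      rcases mem_insert.mp hc with h5 | h5
      · rcases mem_insert.mp hc' with h6 | h6
        · exact absurd (h5.trans h6.symm) hne
        · rw [h5]
          exact hC.2.2.1 c' (mem_of_mem_erase h6)
      · rcases mem_insert.mp hc' with h6 | h6
        · rw [h6]
          exact (hC.2.2.1 c (mem_of_mem_erase h5)).symm
        · exact hC.2.2.2 c (mem_of_mem_erase h5) c' (mem_of_mem_erase h6) hne
  have h4 := h2 _ h3
  rcases mem_insert.mp h4 with h5 | h5
  · exact absurd h5.symm hdf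
  · exact mem_of_mem_erase h5

/-- There is a set `D ≠ univ` such that every vertex outside `D` has a `b`-clique of `D` in its
neighbourhood, and every `d ∈ D` lies in all the `b`-cliques of `D` in the neighbourhood of some
vertex outside `D`. -/
lemma exists_good (G : SimpleGraph V) (b : ℕ) [Nonempty V] (h : ∀ v, ∃ C, Cl G b univ v C) :
    ∃ D : Finset V, D ≠ univ ∧ (∀ v, v ∉ D → ∃ C, Cl G b D v C) ∧
      ∀ d ∈ D, ∃ v, v ∉ D ∧ ∀ C, Cl G b D v C → d ∈ C := by
  classical
  let F : Finset (Finset V) := univ.filter fun D => Inv G b D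
  have hF : F.Nonempty := ⟨univ, by
    simp only [F, mem_filter, mem_univ, true_and]
    exact ⟨fun v hv => absurd (mem_univ v) hv, fun d _ => Or.inl (h d)⟩⟩
  obtain ⟨D, hDF, hmin⟩ := exists_min_image F (fun D => D.card) hF
  have hInv : Inv G b D := (mem_filter.mp hDF).2
  -- the vertices without a private vertex
  let U : Finset V := D.filter fun d => ¬ ∃ v, v ∉ D ∧ ∀ C, Cl G b D v C → d ∈ C
  have hU : U = ∅ := by
    by_contra hne
    have hne : U.Nonempty := nonempty_iff_ne_empty.mpr hne
    obtain ⟨d, hdU, hdmin⟩ := exists_min_image U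
      (fun d => (U.filter fun e => Dep G b D e d).card) hne
    have hdD : d ∈ D := (mem_filter.mp hdU).1
    have hdp : ¬ ∃ v, v ∉ D ∧ ∀ C, Cl G b D v C → d ∈ C := (mem_filter.mp hdU).2
    have hdC : ∃ C, Cl G b D d C := (hInv.2 d hdD).resolve_right hdp
    have hkey : ∀ e ∈ U, Dep G b D e d → Dep G b D d e := by
      intro e heU hed
      have h1 : (U.filter fun f => Dep G b D f e) ⊆ U.filter fun f => Dep G b D f d := by
        intro f hf
        rw [mem_filter] at hf ⊢
        exact ⟨hf.1, hf.2.trans (mem_filter.mp hf.1).1 hed⟩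
      have h2 := eq_of_subset_of_card_le h1 (hdmin e heU)
      have h3 : d ∈ U.filter fun f => Dep G b D f d := mem_filter.mpr ⟨hdU, Or.inl rfl⟩
      rw [← h2] at h3
      exact (mem_filter.mp h3).2
    have hInv' : Inv G b (D.erase d) := by
      constructor
      · intro v hv
        by_cases hvd : v = d
        · subst hvd
          obtain ⟨C, hC⟩ := hdC
          exact ⟨C, hC.mono fun c hc => mem_erase.mpr
            ⟨fun h => hC.not_mem (h ▸ hc), hC.1 hc⟩⟩
        · have hvD : v ∉ D := fun h => hv (mem_erase.mpr ⟨hvd, h⟩)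
          by_contra hno
          refine hdp ⟨v, hvD, fun C hC => ?_⟩
          by_contra hdC'
          exact hno ⟨C, hC.mono fun c hc => mem_erase.mpr ⟨fun h => hdC' (h ▸ hc), hC.1 hc⟩⟩
      · intro e he
        have heD : e ∈ D := mem_of_mem_erase he
        have hed : e ≠ d := ne_of_mem_erase he
        by_cases hep : ∃ v, v ∉ D ∧ ∀ C, Cl G b D v C → e ∈ C
        · obtain ⟨v, hv, hvC⟩ := hep
          exact Or.inr ⟨v, fun h => hv (mem_of_mem_erase h),
            fun C hC => hvC C (hC.mono (hC.1.trans (erase_subset _ _)))⟩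
        · have heU : e ∈ U := mem_filter.mpr ⟨heD, hep⟩
          by_cases hd2 : ∃ C, Cl G b D e C ∧ d ∉ C
          · obtain ⟨C, hC, hdC'⟩ := hd2
            exact Or.inl ⟨C, hC.mono fun c hc => mem_erase.mpr
              ⟨fun h => hdC' (h ▸ hc), hC.1 hc⟩⟩
          · push Not at hd2
            have h1 : Dep G b D e d := Or.inr hd2
            have h2 := (hkey e heU h1).resolve_left hed.symm
            exact Or.inr ⟨d, notMem_erase d D,
              fun C hC => h2 C (hC.mono (hC.1.trans (erase_subset _ _)))⟩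
    have h1 := hmin (D.erase d) (mem_filter.mpr ⟨mem_univ _, hInv'⟩)
    have h2 := card_erase_lt_of_mem hdD
    omega
  have hpriv : ∀ d ∈ D, ∃ v, v ∉ D ∧ ∀ C, Cl G b D v C → d ∈ C := by
    intro d hd
    by_contra hno
    have : d ∈ U := mem_filter.mpr ⟨hd, hno⟩
    rw [hU] at this
    exact absurd this (notMem_empty d)
  refine ⟨D, ?_, hInv.1, hpriv⟩
  rintro rfl
  obtain ⟨v, hv, _⟩ := hpriv (Classical.arbitrary V) (mem_univ _)
  exact hv (mem_univ v)

/-- Every vertex lies in an independent dominating set. -/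
lemma exists_indepDominating (G : SimpleGraph V) (v : V) :
    ∃ S : Finset V, v ∈ S ∧ IndepDominating G S := by
  classical
  let F : Finset (Finset V) := univ.filter fun S => v ∈ S ∧ ∀ a ∈ S, ∀ b ∈ S, ¬ G.Adj a b
  have hF : F.Nonempty := ⟨{v}, by
    simp only [F, mem_filter, mem_univ, true_and, mem_singleton]
    rintro a rfl b rfl
    exact G.irrefl⟩
  obtain ⟨S, hS, hmax⟩ := exists_max_image F (fun S => S.card) hF
  have hS' := (mem_filter.mp hS).2
  refine ⟨S, hS'.1, hS'.2, fun w hw => ?_⟩
  by_contra hno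
  push Not at hno
  have h1 : insert w S ∈ F := by
    refine mem_filter.mpr ⟨mem_univ _, mem_insert_of_mem hS'.1, ?_⟩
    intro a ha b hb
    rcases mem_insert.mp ha with h5 | h5
    · rcases mem_insert.mp hb with h6 | h6
      · rw [h5, h6]
        exact G.irrefl
      · rw [h5]
        exact hno b h6
    · rcases mem_insert.mp hb with h6 | h6
      · rw [h6]
        exact fun h => hno a h5 h.symm
      · exact hS'.2 a h5 b h6
  have h2 := hmax _ h1
  rw [card_insert_of_notMem hw] at h2
  omega

omit [DecidableEq V] [Fintype V] in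
lemma indepDom_le {G : SimpleGraph V} {S : Finset V} (h : IndepDominating G S) :
    indepDom G ≤ S.card := Nat.sInf_le ⟨S, h, rfl⟩

/-- **The main inequality.** If every vertex lies in a clique with `b + 1` vertices, `b ≥ 1`, and
`i(G) = a + 1`, then `b x + a y ≤ x y` for some `x, y ≥ 1` with `x + y = |V|`. -/
theorem main (G : SimpleGraph V) (a b : ℕ) [Nonempty V] (hb : 1 ≤ b)
    (ha : a + 1 ≤ indepDom G) (h : ∀ v, ∃ C, Cl G b univ v C) :
    ∃ x y : ℕ, 1 ≤ x ∧ 1 ≤ y ∧ x + y = Fintype.card V ∧ b * x + a * y ≤ x * y := by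
  classical
  obtain ⟨D, hD, hcl, hpriv⟩ := exists_good G b h
  choose! C hC using hcl
  choose! p hp using hpriv
  have hx : 1 ≤ (univ \ D).card := by
    rw [Nat.one_le_iff_ne_zero, card_ne_zero, sdiff_nonempty]
    intro h1
    exact hD (univ_subset_iff.mp h1)
  obtain ⟨v0, hv0⟩ := card_pos.mp (by omega : 0 < (univ \ D).card)
  have hv0D : v0 ∉ D := (mem_sdiff.mp hv0).2
  have hy : 1 ≤ D.card := by
    have h1 := card_le_card (hC v0 hv0D).1
    rw [(hC v0 hv0D).2.1] at h1
    omega
  have hxy : (univ \ D).card + D.card = Fintype.card V := by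
    rw [card_sdiff_add_card_eq_card (subset_univ D), card_univ]
  -- a vertex of `D` in many of the chosen cliques
  obtain ⟨v, hvD, hv⟩ : ∃ v ∈ D, b * (univ \ D).card ≤
      D.card * ((univ \ D).filter fun u => v ∈ C u).card := by
    by_contra hno
    push Not at hno
    have h1 : ∑ v ∈ D, D.card * ((univ \ D).filter fun u => v ∈ C u).card <
        ∑ v ∈ D, b * (univ \ D).card :=
      sum_lt_sum_of_nonempty (card_pos.mp (by omega)) hno
    have h2 : ∑ v ∈ D, ((univ \ D).filter fun u => v ∈ C u).card = b * (univ \ D).card := by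
      simp_rw [card_filter]
      rw [sum_comm]
      have h3 : ∀ u ∈ univ \ D, ∑ v ∈ D, (if v ∈ C u then 1 else 0) = b := by
        intro u hu
        have hu' := hC u (mem_sdiff.mp hu).2
        rw [← card_filter, ← hu'.2.1]
        congr 1
        ext w
        rw [mem_filter]
        exact ⟨fun h => h.2, fun h => ⟨hu'.1 h, h⟩⟩
      rw [sum_congr rfl h3, sum_const, smul_eq_mul, mul_comm]
    rw [← mul_sum, h2, sum_const, smul_eq_mul] at h1
    exact lt_irrefl _ h1
  obtain ⟨I, hvI, hI⟩ := exists_indepDominating G v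
  have hcardI : a + 1 ≤ I.card := ha.trans (indepDom_le hI)
  set A := D \ I with hA
  set B := (univ \ D).filter fun u => v ∈ C u with hB
  set E := ((D ∩ I).erase v).image p with hE
  -- facts on the private vertices
  have hpD : ∀ d ∈ D ∩ I, p d ∉ D := fun d hd => (hp d (mem_inter.mp hd).1).1
  have hpC : ∀ d ∈ D ∩ I, d ∈ C (p d) := fun d hd =>
    (hp d (mem_inter.mp hd).1).2 _ (hC _ (hpD d hd))
  have hindep : ∀ d ∈ I, ∀ e ∈ I, ∀ u, u ∉ D → d ∈ C u → e ∈ C u → d = e := by
    intro d hd e he u hu hdu heu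
    by_contra hne
    exact hI.1 d hd e he ((hC u hu).2.2.2 d hdu e heu hne)
  have hnotI : ∀ u, u ∉ D → ∀ d ∈ I, d ∈ C u → u ∉ I := by
    intro u hu d hd hdu huI
    exact hI.1 u huI d hd ((hC u hu).2.2.1 d hdu)
  have hcardE : E.card = (D ∩ I).card - 1 := by
    rw [hE, card_image_of_injOn, card_erase_of_mem (mem_inter.mpr ⟨hvD, hvI⟩)]
    intro d hd e he hde
    have hd' := mem_of_mem_erase (mem_coe.mp hd)
    have he' := mem_of_mem_erase (mem_coe.mp he)
    have h1 := hpC d hd'
    have h2 := hpC e he'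
    rw [← hde] at h2
    exact hindep d (mem_inter.mp hd').2 e (mem_inter.mp he').2 (p d) (hpD d hd') h1 h2
  have hAB : Disjoint A (B ∪ E) := by
    rw [disjoint_left]
    intro u hu hu'
    have huD : u ∈ D := (mem_sdiff.mp hu).1
    rcases mem_union.mp hu' with h1 | h1
    · exact (mem_sdiff.mp (mem_filter.mp h1).1).2 huD
    · obtain ⟨d, hd, rfl⟩ := mem_image.mp h1
      exact hpD d (mem_of_mem_erase hd) huD
  have hBE : Disjoint B E := by
    rw [disjoint_left]
    intro u hu hu'
    obtain ⟨d, hd, rfl⟩ := mem_image.mp hu'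
    have hd' := mem_of_mem_erase hd
    have h1 := hindep d (mem_inter.mp hd').2 v hvI (p d) (hpD d hd') (hpC d hd')
      (mem_filter.mp hu).2
    exact ne_of_mem_erase hd h1
  have hsub : A ∪ (B ∪ E) ⊆ univ \ I := by
    intro u hu
    rw [mem_sdiff]
    refine ⟨mem_univ _, ?_⟩
    rcases mem_union.mp hu with h1 | h1
    · exact (mem_sdiff.mp h1).2
    · rcases mem_union.mp h1 with h1 | h1
      · have h2 := mem_filter.mp h1
        exact hnotI u (mem_sdiff.mp h2.1).2 v hvI h2.2
      · obtain ⟨d, hd, rfl⟩ := mem_image.mp h1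
        have hd' := mem_of_mem_erase hd
        exact hnotI _ (hpD d hd') d (mem_inter.mp hd').2 (hpC d hd')
  have hcard := card_le_card hsub
  rw [card_union_of_disjoint hAB, card_union_of_disjoint hBE, hcardE] at hcard
  have h1 : (univ \ I).card + I.card = Fintype.card V := by
    rw [card_sdiff_add_card_eq_card (subset_univ I), card_univ]
  have h2 : A.card + (D ∩ I).card = D.card := card_sdiff_add_card_inter D I
  have h3 : 1 ≤ (D ∩ I).card := card_pos.mpr ⟨v, mem_inter.mpr ⟨hvD, hvI⟩⟩
  have h4 : B.card + a ≤ (univ \ D).card := by omega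
  refine ⟨(univ \ D).card, D.card, hx, hy, hxy, ?_⟩
  calc b * (univ \ D).card + a * D.card ≤ D.card * B.card + a * D.card := by
        exact Nat.add_le_add_right hv _
    _ = D.card * (B.card + a) := by ring
    _ ≤ D.card * (univ \ D).card := Nat.mul_le_mul_left _ h4
    _ = (univ \ D).card * D.card := by ring

end Pool.Agent.H211NG
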