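import Mathlib

/-!
# The independent domination number
-/

set_option autoImplicit false

namespace Pool.Agent.H211NG

universe u

/-- `S` is an independent dominating set of `G`: no two vertices of `S` are adjacent and every vertex
outside `S` has a neighbour in `S`. -/
def IndepDominating {V : Type u} (G : SimpleGraph V) (S : Finset V) : Prop :=
  (∀ v ∈ S, ∀ w ∈ S, ¬ G.Adj v w) ∧ ∀ v, v ∉ S → ∃ w ∈ S, G.Adj v w

/-- The independent domination number `i(G)`: the least size of an independent dominating set. -/
noncomputable def indepDom {V : Type u} (G : SimpleGraph V) : ℕ :=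
  sInf {k : ℕ | ∃ S : Finset V, IndepDominating G S ∧ S.card = k}

end Pool.Agent.H211NG
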