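import Pool.Agent.H211NG.Construct

/-!
# The maximum of `i(G) i(Gᶜ)`
-/

set_option autoImplicit false

namespace Pool.Agent.H211NG

open Finset

universe u

lemma sqrt_le_of (n a b x y : ℕ) (hx : 1 ≤ x) (hy : 1 ≤ y) (hxy : x + y = n)
    (h : b * x + a * y ≤ x * y) : √(a : ℝ) + √(b : ℝ) ≤ √(n : ℝ) := by
  have hx' : (1 : ℝ) ≤ x := by exact_mod_cast hx
  have hy' : (1 : ℝ) ≤ y := by exact_mod_cast hy
  have h' : (b : ℝ) * x + a * y ≤ x * y := by exact_mod_cast h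
  have hn : (n : ℝ) = x + y := by exact_mod_cast hxy.symm
  apply Real.le_sqrt_of_sq_le
  rw [hn]
  set p := √(a : ℝ) with hp
  set q := √(b : ℝ) with hq
  have hp2 : p * p = a := Real.mul_self_sqrt (by positivity)
  have hq2 : q * q = b := Real.mul_self_sqrt (by positivity)
  rw [← hp2, ← hq2] at h'
  have hpos : (0 : ℝ) < x * y := by positivity
  have h1 : (x : ℝ) * y * (p + q) ^ 2 ≤ x * y * (x + y) := by
    have h2 : ((x : ℝ) + y) * (q * q * x + p * p * y) ≤ (x + y) * (x * y) :=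
      mul_le_mul_of_nonneg_left h' (by positivity)
    nlinarith [sq_nonneg (q * x - p * y)]
  exact le_of_mul_le_mul_left h1 hpos

lemma exists_of_sqrt_le (n a b : ℕ) (ha : 1 ≤ a) (hb : 1 ≤ b)
    (h : √(a : ℝ) + √(b : ℝ) ≤ √(n : ℝ)) :
    ∃ x y : ℕ, 1 ≤ x ∧ 1 ≤ y ∧ x + y = n ∧ b * x + a * y ≤ x * y := by
  have ha' : (1 : ℝ) ≤ a := by exact_mod_cast ha
  have hb' : (1 : ℝ) ≤ b := by exact_mod_cast hb
  set p := √(a : ℝ) with hp
  set q := √(b : ℝ) with hq
  set r := √(n : ℝ) with hr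
  have hp2 : p * p = a := Real.mul_self_sqrt (by positivity)
  have hq2 : q * q = b := Real.mul_self_sqrt (by positivity)
  have hr2 : r * r = n := Real.mul_self_sqrt (by positivity)
  have hp0 : 0 ≤ p := Real.sqrt_nonneg _
  have hq0 : 0 ≤ q := Real.sqrt_nonneg _
  have hr0 : 0 ≤ r := Real.sqrt_nonneg _
  have hp1 : 1 ≤ p := by nlinarith
  have hq1 : 1 ≤ q := by nlinarith
  have han : (a : ℝ) < n := by nlinarith
  have hbn : (b : ℝ) < n := by nlinarith
  have han' : a < n := by exact_mod_cast han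
  have hbn' : b < n := by exact_mod_cast hbn
  have hP : (2 : ℝ) * (p * r) ≤ n + a - b := by nlinarith
  have hP2 : (4 : ℝ) * (n * a) ≤ (n + a - b) ^ 2 := by
    have h1 : (0 : ℝ) ≤ 2 * (p * r) := by positivity
    have h2 := mul_self_le_mul_self h1 hP
    have h3 : (2 * (p * r)) * (2 * (p * r)) = 4 * (n * a) := by
      rw [← hp2, ← hr2]; ring
    nlinarith
  obtain ⟨P, hPe⟩ : ∃ P : ℕ, P + b = n + a := ⟨n + a - b, by omega⟩
  have hPr : (P : ℝ) = n + a - b := by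
    have : (P : ℝ) + b = n + a := by exact_mod_cast hPe
    linarith
  rw [← hPr] at hP2
  have hP3 : 4 * (n * a) ≤ P ^ 2 := by exact_mod_cast hP2
  have hna : 1 ≤ n * a := Nat.mul_pos (by omega) ha
  have hP4 : 2 ≤ P := by nlinarith
  obtain ⟨x, hx⟩ : ∃ x : ℕ, P = 2 * x ∨ P = 2 * x + 1 := ⟨P / 2, by omega⟩
  have hx1 : 1 ≤ x := by omega
  have hxn : x < n := by omega
  obtain ⟨y, hy⟩ : ∃ y : ℕ, x + y = n := ⟨n - x, by omega⟩
  refine ⟨x, y, hx1, by omega, hy, ?_⟩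
  have hkey : x * x + n * a ≤ P * x := by
    rcases hx with h1 | h1
    · rw [h1] at hP3 ⊢
      nlinarith
    · rw [h1] at hP3 ⊢
      have h2 : 4 * (n * a) ≤ 4 * (x * x + x) + 1 := by nlinarith
      have h3 : n * a ≤ x * x + x := by omega
      nlinarith
  -- `b x + a y - x y = x² + n a - P x`
  have h1 : (b : ℤ) * x + a * y ≤ x * y := by
    have e1 : (P : ℤ) + b = n + a := by exact_mod_cast hPe
    have e2 : (x : ℤ) + y = n := by exact_mod_cast hy
    have e3 : (x : ℤ) * x + n * a ≤ P * x := by exact_mod_cast hkey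
    have e4 : (b : ℤ) = n + a - P := by linarith
    have e5 : (y : ℤ) = n - x := by linarith
    rw [e4, e5]
    nlinarith
  exact_mod_cast h1

lemma indepDom_mem {V : Type u} [Fintype V] [DecidableEq V] [Nonempty V] (G : SimpleGraph V) :
    ∃ S : Finset V, IndepDominating G S ∧ S.card = indepDom G := by
  obtain ⟨S, -, hS⟩ := exists_indepDominating G (Classical.arbitrary V)
  exact Nat.sInf_mem (s := {k : ℕ | ∃ S : Finset V, IndepDominating G S ∧ S.card = k})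
    ⟨S.card, S, hS, rfl⟩

lemma indepDom_le_card {V : Type u} [Fintype V] [DecidableEq V] [Nonempty V]
    (G : SimpleGraph V) : indepDom G ≤ Fintype.card V := by
  obtain ⟨S, -, hS⟩ := indepDom_mem G
  rw [← hS]
  exact card_le_univ S

lemma one_le_indepDom {V : Type u} [Fintype V] [DecidableEq V] [Nonempty V]
    (G : SimpleGraph V) : 1 ≤ indepDom G := by
  obtain ⟨S, hS, hc⟩ := indepDom_mem G
  rw [← hc, Nat.one_le_iff_ne_zero]
  intro h0
  rw [card_eq_zero] at h0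
  subst h0
  obtain ⟨w, hw, -⟩ := hS.2 (Classical.arbitrary V) (notMem_empty _)
  exact absurd hw (notMem_empty w)

/-- If `i(G) ≥ a + 1` and `i(Gᶜ) ≥ b + 1` then `√a + √b ≤ √n`. -/
theorem sqrt_ineq {V : Type u} [Fintype V] [DecidableEq V] [Nonempty V] (G : SimpleGraph V)
    (a b : ℕ) (hb : 1 ≤ b) (hi : a + 1 ≤ indepDom G) (hj : b + 1 ≤ indepDom Gᶜ) :
    √(a : ℝ) + √(b : ℝ) ≤ √(Fintype.card V : ℝ) := by
  have hcl : ∀ v, ∃ C, Cl G b univ v C := by
    intro v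
    obtain ⟨S, hvS, hS⟩ := exists_indepDominating Gᶜ v
    have h1 := hj.trans (indepDom_le hS)
    have h2 : b ≤ (S.erase v).card := by
      rw [card_erase_of_mem hvS]
      omega
    obtain ⟨C, hCS, hC⟩ := exists_subset_card_eq h2
    have hadj : ∀ c ∈ S, ∀ c' ∈ S, c ≠ c' → G.Adj c c' := by
      intro c hc c' hc' hne
      by_contra hno
      exact hS.1 c hc c' hc' ((SimpleGraph.compl_adj _ _ _).mpr ⟨hne, hno⟩)
    refine ⟨C, subset_univ _, hC, fun c hc => ?_, fun c hc c' hc' hne => ?_⟩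
    · exact hadj v hvS c (mem_of_mem_erase (hCS hc)) (ne_of_mem_erase (hCS hc)).symm
    · exact hadj c (mem_of_mem_erase (hCS hc)) c' (mem_of_mem_erase (hCS hc')) hne
  obtain ⟨x, y, hx, hy, hxy, h⟩ := main G a b hb hi hcl
  exact sqrt_le_of _ a b x y hx hy hxy h

/-- The value of the maximum. -/
noncomputable def value (n : ℕ) : ℕ :=
  max n ((Ico 1 n).sup fun a => (a + 1) * (⌊(√(n : ℝ) - √(a : ℝ)) ^ 2⌋₊ + 1))

lemma le_value (n a b : ℕ) (ha : 1 ≤ a) (hb : 1 ≤ b) (h : √(a : ℝ) + √(b : ℝ) ≤ √(n : ℝ)) :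
    (a + 1) * (b + 1) ≤ value n := by
  have hb' : (1 : ℝ) ≤ b := by exact_mod_cast hb
  have hq1 : 1 ≤ √(b : ℝ) := by
    rw [Real.one_le_sqrt]
    exact hb'
  have han : a < n := by
    have h1 : √(a : ℝ) < √(n : ℝ) := by linarith
    have h2 := (Real.sqrt_lt_sqrt_iff (by positivity)).mp h1
    exact_mod_cast h2
  have hbf : b ≤ ⌊(√(n : ℝ) - √(a : ℝ)) ^ 2⌋₊ := by
    apply Nat.le_floor
    have h1 : √(b : ℝ) ≤ √(n : ℝ) - √(a : ℝ) := by linarith
    have h2 : √(b : ℝ) ^ 2 ≤ (√(n : ℝ) - √(a : ℝ)) ^ 2 :=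
      pow_le_pow_left₀ (by positivity) h1 2
    rwa [Real.sq_sqrt (by positivity)] at h2
  refine le_trans ?_ (le_max_right _ _)
  refine le_trans (Nat.mul_le_mul_left _ (Nat.add_le_add_right hbf 1)) ?_
  exact le_sup (f := fun a : ℕ => (a + 1) * (⌊(√(n : ℝ) - √(a : ℝ)) ^ 2⌋₊ + 1))
    (mem_Ico.mpr ⟨ha, han⟩)

/-- Either the value is `n` or it is `(a + 1) (b + 1)` with `√a + √b ≤ √n`. -/
lemma value_cases (n : ℕ) : value n = n ∨ ∃ a b : ℕ, 1 ≤ a ∧ 1 ≤ b ∧
    √(a : ℝ) + √(b : ℝ) ≤ √(n : ℝ) ∧ value n = (a + 1) * (b + 1) := by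
  rcases le_or_gt ((Ico 1 n).sup fun a => (a + 1) * (⌊(√(n : ℝ) - √(a : ℝ)) ^ 2⌋₊ + 1)) n with h | h
  · exact Or.inl (max_eq_left h)
  · right
    have hne : (Ico 1 n).Nonempty := by
      rw [nonempty_iff_ne_empty]
      intro h0
      rw [h0, sup_empty] at h
      exact absurd h (Nat.not_lt_zero _)
    obtain ⟨a, ha, hs⟩ := exists_mem_eq_sup (Ico 1 n) hne
      (fun a => (a + 1) * (⌊(√(n : ℝ) - √(a : ℝ)) ^ 2⌋₊ + 1))
    rw [mem_Ico] at ha
    have han : √(a : ℝ) ≤ √(n : ℝ) := Real.sqrt_le_sqrt (by exact_mod_cast ha.2.le)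
    refine ⟨a, ⌊(√(n : ℝ) - √(a : ℝ)) ^ 2⌋₊, ha.1, ?_, ?_, ?_⟩
    · rw [Nat.one_le_iff_ne_zero]
      intro h0
      rw [hs] at h
      simp only [h0, zero_add, mul_one] at h
      omega
    · have h1 : ((⌊(√(n : ℝ) - √(a : ℝ)) ^ 2⌋₊ : ℕ) : ℝ) ≤ (√(n : ℝ) - √(a : ℝ)) ^ 2 :=
        Nat.floor_le (by positivity)
      have h2 := Real.sqrt_le_sqrt h1
      rw [Real.sqrt_sq (by linarith)] at h2
      linarith
    · rw [← hs]
      exact max_eq_right h.le

theorem upper (n : ℕ) (hn : 1 ≤ n) (G : SimpleGraph (Fin n)) :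
    indepDom G * indepDom Gᶜ ≤ value n := by
  have : Nonempty (Fin n) := ⟨⟨0, hn⟩⟩
  have h1 := indepDom_le_card G
  have h2 := indepDom_le_card Gᶜ
  rw [Fintype.card_fin] at h1 h2
  have hn' : n ≤ value n := le_max_left _ _
  rcases Nat.lt_or_ge (indepDom G) 2 with h | h
  · have : indepDom G * indepDom Gᶜ ≤ 1 * n := Nat.mul_le_mul (by omega) h2
    omega
  rcases Nat.lt_or_ge (indepDom Gᶜ) 2 with h' | h'
  · have : indepDom G * indepDom Gᶜ ≤ n * 1 := Nat.mul_le_mul h1 (by omega)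
    omega
  obtain ⟨a, ha⟩ : ∃ a, indepDom G = a + 1 := ⟨indepDom G - 1, by omega⟩
  obtain ⟨b, hb⟩ : ∃ b, indepDom Gᶜ = b + 1 := ⟨indepDom Gᶜ - 1, by omega⟩
  have h3 := sqrt_ineq G a b (by omega) ha.ge hb.ge
  rw [Fintype.card_fin] at h3
  rw [ha, hb]
  exact le_value n a b (by omega) (by omega) h3

theorem attained (n : ℕ) (hn : 1 ≤ n) :
    ∃ G : SimpleGraph (Fin n), indepDom G * indepDom Gᶜ = value n := by
  have : Nonempty (Fin n) := ⟨⟨0, hn⟩⟩
  rcases value_cases n with h | ⟨a, b, ha, hb, hab, hv⟩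
  · refine ⟨⊤, le_antisymm (upper n hn ⊤) ?_⟩
    rw [h]
    have h1 := one_le_indepDom (⊤ : SimpleGraph (Fin n))
    have h2 : n ≤ indepDom (⊤ : SimpleGraph (Fin n))ᶜ := by
      obtain ⟨S, hS, hc⟩ := indepDom_mem (⊤ : SimpleGraph (Fin n))ᶜ
      have h3 : S = univ := by
        ext v
        simp only [mem_univ, iff_true]
        by_contra hv
        obtain ⟨w, -, hw⟩ := hS.2 v hv
        rw [compl_top] at hw
        exact hw
      rw [← hc, h3, card_univ, Fintype.card_fin]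
    calc n = 1 * n := (one_mul n).symm
      _ ≤ _ := Nat.mul_le_mul h1 h2
  · obtain ⟨x, y, hx, hy, hxy, h⟩ := exists_of_sqrt_le n a b ha hb hab
    obtain ⟨G, h1, h2⟩ := construct n a b x y ha hb hx hy hxy h
    refine ⟨G, le_antisymm (upper n hn G) ?_⟩
    rw [hv]
    exact Nat.mul_le_mul h1 h2

theorem pairs (n a b : ℕ) (hn : 1 ≤ n) (ha : 1 ≤ a) (hb : 1 ≤ b) :
    (∃ G : SimpleGraph (Fin n), a + 1 ≤ indepDom G ∧ b + 1 ≤ indepDom Gᶜ) ↔
      √(a : ℝ) + √(b : ℝ) ≤ √(n : ℝ) := by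
  have : Nonempty (Fin n) := ⟨⟨0, hn⟩⟩
  constructor
  · rintro ⟨G, h1, h2⟩
    have h3 := sqrt_ineq G a b hb h1 h2
    rwa [Fintype.card_fin] at h3
  · intro hab
    obtain ⟨x, y, hx, hy, hxy, h⟩ := exists_of_sqrt_le n a b ha hb hab
    exact construct n a b x y ha hb hx hy hxy h

/-- `16 M(n) ≤ (n + 4)²`. -/
theorem value_le (n : ℕ) : 16 * value n ≤ (n + 4) ^ 2 := by
  rcases value_cases n with h | ⟨a, b, ha, hb, hab, hv⟩
  · rw [h]
    zify
    nlinarith [sq_nonneg ((n : ℤ) - 4)]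
  · rw [hv]
    have ha' : (1 : ℝ) ≤ a := by exact_mod_cast ha
    have hb' : (1 : ℝ) ≤ b := by exact_mod_cast hb
    have hmain : 16 * (((a : ℝ) + 1) * (b + 1)) ≤ ((n : ℝ) + 4) ^ 2 := by
      set p := √(a : ℝ) with hp
      set q := √(b : ℝ) with hq
      set r := √(n : ℝ) with hr
      have hp2 : p * p = a := Real.mul_self_sqrt (by positivity)
      have hq2 : q * q = b := Real.mul_self_sqrt (by positivity)
      have hr2 : r * r = n := Real.mul_self_sqrt (by positivity)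
      have hp0 : 0 ≤ p := Real.sqrt_nonneg _
      have hq0 : 0 ≤ q := Real.sqrt_nonneg _
      have hr0 : 0 ≤ r := Real.sqrt_nonneg _
      have hp1 : 1 ≤ p := by nlinarith
      have hq1 : 1 ≤ q := by nlinarith
      have ht1 : 1 ≤ p * q := by nlinarith
      have hs : (p + q) * (p + q) ≤ r * r := mul_self_le_mul_self (by positivity) hab
      have ht2 : 4 * (p * q) ≤ (p + q) * (p + q) := by nlinarith [sq_nonneg (p - q)]
      have h1 : 0 ≤ 4 * (p * q) - 4 := by linarith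
      have h2 : (4 * (p * q) - 4) * (4 * (p * q) - 4) ≤ (r * r - 4) * (r * r - 4) :=
        mul_self_le_mul_self h1 (by linarith)
      rw [← hp2, ← hq2, ← hr2]
      nlinarith
    exact_mod_cast hmain

/-- Equality holds exactly if `4` divides `n`. -/
theorem value_eq_iff (n : ℕ) (hn : 1 ≤ n) : 16 * value n = (n + 4) ^ 2 ↔ 4 ∣ n := by
  constructor
  · intro h
    have h1 : 4 ^ 2 ∣ (n + 4) ^ 2 := ⟨value n, by rw [← h]; norm_num⟩
    have h2 : 4 ∣ n + 4 := (Nat.pow_dvd_pow_iff (by norm_num)).mp h1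
    omega
  · rintro ⟨k, rfl⟩
    have hk : 1 ≤ k := by omega
    refine le_antisymm (value_le _) ?_
    have h1 : √(k : ℝ) + √(k : ℝ) ≤ √((4 * k : ℕ) : ℝ) := by
      apply Real.le_sqrt_of_sq_le
      have := Real.mul_self_sqrt (by positivity : (0 : ℝ) ≤ k)
      push_cast
      nlinarith
    have h2 := le_value (4 * k) k k hk hk h1
    nlinarith

end Pool.Agent.H211NG
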